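import Pool.Agent.Y992.SC.All2
import Pool.Agent.Y992.SC.Fin4

/-!
# Glauber dynamics with `(1 + o(1)) Δ` colours on locally sparse graphs mixes in `O(n log n)` steps

1. There is a constant `C` such that for all large `Δ` and all `q ≥ Δ + C Δ / (log Δ) ^ (1/4)` the Glauber
dynamics for proper `q`-colourings mixes in at most `A n log n` steps (`A` depends on `Δ` and `q`) on all
graphs of maximum degree at most `Δ` in which every edge is in at most `Δ ^ (4/3)` four-cycles; for
instance on all graphs of maximum degree at most `Δ` without four-cycles.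

2. For all `ε > 0` there is `η > 0` such that for all large `Δ` and `q ≥ (1 + ε) Δ` the same holds for the
graphs in which every vertex is in at most `η Δ ^ 3 / 2` four-cycles.

Both theorems are proved in the starting library (`Pool.Agent.Y992.SC.final3`, `final4`, from
spectral independence `s_IND3`, `s_IND2` and the `O(n log n)` criterion `s_MIX`); no results file contains
them. The starting result `UniformPolynomial` has a polynomial bound with `q ≥ (1 + ε) Δ`.
-/

set_option autoImplicit false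

namespace Pool.Agent.Results.MP_26a019_lc.NearlyDeltaColours

open Pool.Agent.H983R2.GC Pool.Agent.Y992.SC

/-- The Glauber dynamics for proper `q`-colourings of `G` mixes in at most `A n log n` steps: after
`tmix G q` steps the distribution is at distance at most `1 / 4` from the uniform one for every initial
colouring, and `tmix G q ≤ A n log n`. -/
def MixesFast {V : Type} [Fintype V] [DecidableEq V] (G : SimpleGraph V) (q : ℕ) (A : ℝ) : Prop :=
  (∀ σ : PCol G q, tv ((P G q ^ tmix G q) σ) (unif G q) ≤ 1 / 4) ∧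
    (tmix G q : ℝ) ≤ A * (Fintype.card V * Real.log (Fintype.card V))

/-- (1) `q ≥ Δ + C Δ / (log Δ) ^ (1/4)` and every edge is in at most `Δ ^ (4/3)` four-cycles.
(2) `q ≥ (1 + ε) Δ` and every vertex is in at most `η Δ ^ 3 / 2` four-cycles. In both cases the Glauber
dynamics for proper `q`-colourings mixes in `O(n log n)` steps on all graphs of maximum degree at
most `Δ`. -/
theorem result :
    (∃ (C : ℝ) (Δ₀ : ℕ), 0 < C ∧ ∀ Δ q : ℕ, Δ₀ ≤ Δ →
      (Δ : ℝ) + C * Δ / (Real.log Δ) ^ (1 / 4 : ℝ) ≤ (q : ℝ) → ∃ A : ℝ, 0 < A ∧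
      ∀ (V : Type) [Fintype V] [DecidableEq V] (G : SimpleGraph V),
      (∀ v, (G.neighborSet v).ncard ≤ Δ) →
      (∀ u v, G.Adj u v → ((fc G u v).ncard : ℝ) ≤ (Δ : ℝ) ^ (4 / 3 : ℝ)) →
      2 ≤ Fintype.card V → MixesFast G q A) ∧
    ∀ ε : ℝ, 0 < ε → ∃ (Δ₀ : ℕ) (η : ℝ), 0 < η ∧ ∀ Δ q : ℕ, Δ₀ ≤ Δ →
      (1 + ε) * (Δ : ℝ) ≤ (q : ℝ) → ∃ A : ℝ, 0 < A ∧
      ∀ (V : Type) [Fintype V] [DecidableEq V] (G : SimpleGraph V),
      (∀ v, (G.neighborSet v).ncard ≤ Δ) →
      (∀ u, ((fcv G u).ncard : ℝ) ≤ η * (Δ : ℝ) ^ 3) →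
      2 ≤ Fintype.card V → MixesFast G q A :=
  ⟨final3 s_IND3 s_MIX, fun ε hε => final4 s_IND2 s_MIX ε hε⟩

end Pool.Agent.Results.MP_26a019_lc.NearlyDeltaColours
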